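import Pool.Agent.H96.HK.Basic

/-!
# MP_e94f6f_an: module L1B (support and concentration of the local subsolution)
-/

open MeasureTheory Set Filter Topology
open scoped ContDiff

namespace Pool.Agent.H69.HK

open Pool.Agent.H96.HK

lemma abs_dd_sub_le {F : ℝ → ℝ} (D : DD F) (y p q : X) :
    |dd F y p - dd F y q| ≤ |p.1 - q.1| + (1 + |p.1|) * |p.2 - q.2| := by
  have h1 := D.tri y p q
  have h2 := D.tri y q p
  have h3 := D.symm p q
  have h4 := D.le1 p q
  rw [abs_le]
  constructor <;> linarith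

lemma continuous_dd {F : ℝ → ℝ} (D : DD F) (y : X) : Continuous (dd F y) := by
  rw [continuous_iff_continuousAt]
  intro p
  rw [ContinuousAt, tendsto_iff_norm_sub_tendsto_zero]
  have h0 : Tendsto (fun q : X => |p.1 - q.1| + (1 + |p.1|) * |p.2 - q.2|) (𝓝 p)
      (𝓝 (|p.1 - p.1| + (1 + |p.1|) * |p.2 - p.2|)) := by
    apply Continuous.tendsto
    fun_prop
  simp only [sub_self, abs_zero, mul_zero, add_zero] at h0
  refine squeeze_zero (fun q => norm_nonneg _) (fun q => ?_) h0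
  rw [Real.norm_eq_abs, abs_sub_comm]
  exact abs_dd_sub_le D y p q

lemma WL_nonneg' {K t : ℝ} (ht : 0 < t) (r2 : ℝ) : 0 ≤ WL K t r2 := by
  unfold WL
  have := E2_pos' ht r2
  positivity

lemma WL_anti' {K t : ℝ} (hK : 0 ≤ K) (ht : 0 < t) {a b : ℝ} (h : a ≤ b) :
    WL K t b ≤ WL K t a := by
  unfold WL
  have h1 := E2_anti ht h
  have h2 : Real.exp (-(K * b / 4)) ≤ Real.exp (-(K * a / 4)) := by
    apply Real.exp_le_exp.mpr
    have := mul_le_mul_of_nonneg_left h hK
    linarith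
  have h3 := E2_pos' ht b
  have h4 := E2_pos' ht a
  have h5 : 0 ≤ Real.exp (-((K + K ^ 2) * t)) * E2 t a := by positivity
  gcongr

lemma WL_le_E2 {K t : ℝ} (hK : 0 ≤ K) (ht : 0 < t) {a : ℝ} (ha : 0 ≤ a) :
    WL K t a ≤ E2 t a := by
  unfold WL
  have h1 : Real.exp (-((K + K ^ 2) * t)) ≤ 1 := by
    rw [Real.exp_le_one_iff]
    have : 0 ≤ (K + K ^ 2) * t := by positivity
    linarith
  have h2 : Real.exp (-(K * a / 4)) ≤ 1 := by
    rw [Real.exp_le_one_iff]
    have : 0 ≤ K * a / 4 := by positivity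
    linarith
  have h3 := (E2_pos' ht a).le
  calc Real.exp (-((K + K ^ 2) * t)) * E2 t a * Real.exp (-(K * a / 4))
      ≤ 1 * E2 t a * 1 := by
        gcongr
    _ = E2 t a := by ring

lemma WL_continuousOn (K : ℝ) :
    ContinuousOn (fun z : ℝ × ℝ => WL K z.1 z.2) (Ioi 0 ×ˢ univ) := by
  unfold WL E2
  have h4 : ∀ z ∈ (Ioi (0 : ℝ)) ×ˢ (univ : Set ℝ), 4 * z.1 ≠ 0 := by
    intro z hz
    have : 0 < z.1 := hz.1
    positivity
  have h5 : ∀ z ∈ (Ioi (0 : ℝ)) ×ˢ (univ : Set ℝ), 4 * Real.pi * z.1 ≠ 0 := by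
    intro z hz
    have : 0 < z.1 := hz.1
    positivity
  refine ContinuousOn.mul (ContinuousOn.mul ?_ (ContinuousOn.mul ?_ ?_)) ?_
  · fun_prop
  · exact ContinuousOn.inv₀ (by fun_prop) h5
  · exact Real.continuous_exp.comp_continuousOn
      ((ContinuousOn.div (by fun_prop) (by fun_prop) h4).neg)
  · fun_prop

lemma psiL_nonneg (F : ℝ → ℝ) (K ε : ℝ) (y : X) (t : ℝ) (p : X) : 0 ≤ psiL F K ε y t p :=
  le_max_left _ _

lemma psiL_le {F : ℝ → ℝ} {K ε : ℝ} (hK : 0 ≤ K) (y : X) {t : ℝ} (ht : 0 < t) (p : X) :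
    psiL F K ε y t p ≤ E2 t (dd F y p ^ 2) := by
  have h1 := WL_le_E2 (K := K) hK ht (sq_nonneg (dd F y p))
  have h2 := WL_nonneg' (K := K) ht (ε ^ 2)
  have h3 := WL_nonneg' (K := K) ht (dd F y p ^ 2)
  unfold psiL
  refine max_le (h3.trans h1) (by linarith)

lemma nn_nonneg (F : ℝ → ℝ) (y p : X) : 0 ≤ nn F y p := Real.sqrt_nonneg _

lemma E2_small {a : ℝ} (ha : 0 < a) {η : ℝ} (hη : 0 < η) :
    ∀ᶠ t in 𝓝[>] (0 : ℝ), E2 t a ≤ η := by
  have hlim : Tendsto (fun t : ℝ => 8 / (Real.pi * a ^ 2) * t) (𝓝[>] 0)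
      (𝓝 (8 / (Real.pi * a ^ 2) * 0)) :=
    (Continuous.tendsto (by fun_prop) 0).mono_left nhdsWithin_le_nhds
  rw [mul_zero] at hlim
  filter_upwards [hlim.eventually (gt_mem_nhds hη), self_mem_nhdsWithin] with t h1 (ht : 0 < t)
  refine le_trans ?_ h1.le
  unfold E2
  have hx : 0 < a / (4 * t) := by positivity
  have h2 := Real.quadratic_le_exp_of_nonneg hx.le
  have h3 : (a / (4 * t)) ^ 2 / 2 ≤ Real.exp (a / (4 * t)) := by linarith
  rw [Real.exp_neg]
  have h4 : (Real.exp (a / (4 * t)))⁻¹ ≤ ((a / (4 * t)) ^ 2 / 2)⁻¹ :=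
    inv_anti₀ (by positivity) h3
  calc (4 * Real.pi * t)⁻¹ * (Real.exp (a / (4 * t)))⁻¹
      ≤ (4 * Real.pi * t)⁻¹ * ((a / (4 * t)) ^ 2 / 2)⁻¹ :=
        mul_le_mul_of_nonneg_left h4 (by positivity)
    _ = 8 / (Real.pi * a ^ 2) * t := by
        field_simp
        ring

theorem l1b (hDD : T_DD) (hL : T_LOC) (hC : T_CONC) : T_L1B := by
  intro F K hF hB ε hε hε1 hε2 y
  have D := hDD F hF
  have hK1 := hB.K1
  have hK0 : 0 ≤ K := by linarith
  have hF0 : 0 < F 0 := hF.pos 0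
  have hcont := continuous_dd D y
  have hcpt : IsCompact {p | dd F y p ≤ ε} := by
    have hsub : {p | dd F y p ≤ ε} ⊆
        Icc (y.1 - ε) (y.1 + ε) ×ˢ Icc (y.2 - ε / F 0) (y.2 + ε / F 0) := by
      intro p hp
      have hp' : dd F y p ≤ ε := hp
      have h1 := (D.ge1 y p).trans hp'
      have h2 := (D.ge2 y p).trans hp'
      have h3 : |y.2 - p.2| ≤ ε / F 0 := by
        rw [le_div_iff₀ hF0]
        linarith
      rw [abs_le] at h1 h3
      refine ⟨⟨?_, ?_⟩, ⟨?_, ?_⟩⟩ <;> linarith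
    exact (isCompact_Icc.prod isCompact_Icc).of_isClosed_subset
      (isClosed_le hcont continuous_const) hsub
  have hout : ∀ t > 0, ∀ p, ε < dd F y p → psiL F K ε y t p = 0 := by
    intro t ht p hp
    unfold psiL
    have h1 : ε ^ 2 ≤ dd F y p ^ 2 := pow_le_pow_left₀ hε.le hp.le 2
    have h2 := WL_anti' (K := K) hK0 ht h1
    exact max_eq_left (by linarith)
  have hcon : ContinuousOn (fun z : ℝ × X => psiL F K ε y z.1 z.2) (Ioi 0 ×ˢ univ) := by
    unfold psiL
    have hA : ContinuousOn (fun z : ℝ × X => WL K z.1 (dd F y z.2 ^ 2)) (Ioi 0 ×ˢ univ) := by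
      have : ContinuousOn ((fun z : ℝ × ℝ => WL K z.1 z.2) ∘
          (fun z : ℝ × X => (z.1, dd F y z.2 ^ 2))) (Ioi 0 ×ˢ univ) := by
        refine (WL_continuousOn K).comp ?_ ?_
        · exact (continuous_fst.prodMk ((hcont.comp continuous_snd).pow 2)).continuousOn
        · intro z hz
          exact ⟨hz.1, mem_univ _⟩
      exact this
    have hB' : ContinuousOn (fun z : ℝ × X => WL K z.1 (ε ^ 2)) (Ioi 0 ×ˢ univ) := by
      have : ContinuousOn ((fun z : ℝ × ℝ => WL K z.1 z.2) ∘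
          (fun z : ℝ × X => (z.1, ε ^ 2))) (Ioi 0 ×ˢ univ) := by
        refine (WL_continuousOn K).comp ?_ ?_
        · exact (continuous_fst.prodMk continuous_const).continuousOn
        · intro z hz
          exact ⟨hz.1, mem_univ _⟩
      exact this
    exact ContinuousOn.sup continuousOn_const (hA.sub hB')
  refine ⟨hcpt, ?_, hcon, hout, ?_⟩
  · intro k hk
    rw [Set.disjoint_left]
    rintro _ ⟨z, hz, rfl⟩ hz2
    have h1 : dd F y z ≤ ε := hz
    have h2 : dd F y (gk k z) ≤ ε := hz2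
    have h3 := D.tri z y (gk k z)
    have h4 := D.symm z y
    have h5 := D.ge2 z (gk k z)
    have h6 : |z.2 - (gk k z).2| = |(k : ℝ)| * (Real.pi / 2) := by
      rw [gk_snd]
      have : z.2 - (z.2 + (k : ℝ) * (Real.pi / 2)) = -((k : ℝ) * (Real.pi / 2)) := by ring
      rw [this, abs_neg, abs_mul, abs_of_pos (by positivity : (0 : ℝ) < Real.pi / 2)]
    rw [h6] at h5
    have h7 : (1 : ℝ) ≤ |(k : ℝ)| := by
      have : (1 : ℤ) ≤ |k| := Int.one_le_abs hk
      calc (1 : ℝ) = ((1 : ℤ) : ℝ) := by norm_num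
        _ ≤ ((|k| : ℤ) : ℝ) := by exact_mod_cast this
        _ = |(k : ℝ)| := by push_cast; rfl
    have h8 : (1 : ℝ) < Real.pi / 2 := by linarith [Real.pi_gt_three]
    have h9 : F 0 * 1 < F 0 * (|(k : ℝ)| * (Real.pi / 2)) := by
      apply mul_lt_mul_of_pos_left _ hF0
      nlinarith
    linarith
  · refine hC F hF y {p | dd F y p ≤ ε} 1 (psiL F K ε y) one_pos hcpt ?_ ?_ ?_ ?_ ?_
    · intro t ht
      have h1 : ContinuousOn ((fun z : ℝ × X => psiL F K ε y z.1 z.2) ∘ (fun p : X => (t, p)))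
          univ := by
        refine hcon.comp (by fun_prop) ?_
        intro p _
        exact ⟨ht.1, mem_univ _⟩
      exact continuousOn_univ.mp h1
    · intro t _ p
      exact psiL_nonneg F K ε y t p
    · intro t ht p hp
      exact hout t ht.1 p (not_le.mp hp)
    · intro κ hκ0 hκ1
      refine ⟨κ * F 0 / 2, by positivity, ?_⟩
      intro t ht z hz
      refine (psiL_le hK0 y ht.1 z).trans (E2_anti ht.1 ?_)
      have h0 := nn_nonneg F y z
      have h1 := (hL F hF y z).1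
      have h2 : nn F y z / F 0 ≤ κ / 2 := by
        rw [div_le_iff₀ hF0]
        linarith
      have h3 : nn F y z * (1 - κ / 2) ≤ dd F y z := by
        refine le_trans ?_ h1
        apply mul_le_mul_of_nonneg_left _ h0
        linarith
      have h4 : 0 ≤ nn F y z * (1 - κ / 2) := mul_nonneg h0 (by linarith)
      have h5 := pow_le_pow_left₀ h4 h3 2
      have h6 : (1 - κ) * nn F y z ^ 2 ≤ (nn F y z * (1 - κ / 2)) ^ 2 := by
        have : (nn F y z * (1 - κ / 2)) ^ 2 =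
          (1 - κ) * nn F y z ^ 2 + (κ / 2) ^ 2 * nn F y z ^ 2 := by ring
        rw [this]
        have : 0 ≤ (κ / 2) ^ 2 * nn F y z ^ 2 := by positivity
        linarith
      linarith
    · intro r hr η hη
      filter_upwards [E2_small (a := r ^ 2 / 4) (by positivity) hη, self_mem_nhdsWithin]
        with t h1 (ht : 0 < t) z hz hrz
      refine (psiL_le hK0 y ht z).trans (le_trans (E2_anti ht ?_) h1)
      have hz' : dd F y z ≤ ε := hz
      have h2 : dd F y z < F 0 := by linarith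
      have h3 := (hL F hF y z).2.2 h2
      have h4 : dd F y z / F 0 ≤ 1 / 2 := by
        rw [div_le_iff₀ hF0]
        linarith
      have h0 := nn_nonneg F y z
      have h5 : nn F y z * (1 / 2) ≤ dd F y z := by
        refine le_trans ?_ h3
        apply mul_le_mul_of_nonneg_left _ h0
        linarith
      have h6 : r / 2 ≤ dd F y z := by linarith
      have h7 := pow_le_pow_left₀ (by positivity : (0 : ℝ) ≤ r / 2) h6 2
      calc r ^ 2 / 4 = (r / 2) ^ 2 := by ring
        _ ≤ _ := h7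

end Pool.Agent.H69.HK
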