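import Pool.Agent.H96.HK.Basic

/-!
# MP_e94f6f_an: module U5 (both points in the flat part, upper bound)
-/

open MeasureTheory Set Filter Topology
open scoped ContDiff

namespace Pool.Agent.H69.HK

open Pool.Agent.H96.HK

lemma ZZ_pos {t : ℝ} (ht : 0 < t) (p q : X) : 0 < ZZ t p q := by
  unfold ZZ
  exact add_pos (E2_pos' ht _) (E2_pos' ht _)

theorem u5 (hU1 : T_U1) (hU2 : T_U2) (hU4 : T_U4) (hC : T_CMPE) (hDec : T_DEC) (hZH : T_ZH)
    (hDQ : T_DQ) (hJ : T_JET) : T_U5 := by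
  intro F H hF hH
  obtain ⟨C2, hC2, h2⟩ := hU2 F hF 1 one_pos
  obtain ⟨C4, hC4, h4⟩ := hU4 F H hF hH
  obtain ⟨z1, z2, z3, z4, z5, -⟩ := hZH F hF
  have Q := hDQ F hF
  have hs2 : √2 ≤ (2 : ℝ) := by
    rw [Real.sqrt_le_left (by norm_num)]
    norm_num
  -- estimate for small times
  have ha : ∀ p q : X, 2 ≤ p.1 → 3 ≤ q.1 → ∀ t, 0 < t → t ≤ 1 + |p.1| + |q.1| →
      H t p q ≤ (C2 + C4) * ZZ t p q := by
    intro p q hp hq t ht htl
    have e1 := hU1 F H hF hH t ht p q
    have e2 := h2 p q t ht (by linarith)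
    have e3 := Q.cone p q (by linarith) (by linarith)
    rw [e3] at e2
    have e4 := (z5 t ht p q).1
    have e5 := ZZ_pos ht p q
    have e6 : C2 * E2 t (min (cm p q) (cp p q)) ≤ C2 * ZZ t p q :=
      mul_le_mul_of_nonneg_left e4 hC2.le
    have e7 : 0 ≤ C4 * ZZ t p q := by positivity
    rw [add_mul]
    linarith
  -- estimate on the boundary
  have hb : ∀ q : X, 3 ≤ q.1 → ∀ t, 0 < t → ∀ φ : ℝ,
      H t (2, φ) q ≤ (C2 + C4) * ZZ t (2, φ) q := by
    intro q hq t ht φ
    rw [hH.symm t ht]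
    have e2 := h4 q (2, φ) (by norm_num) t ht
    have e3 := Q.cone q (2, φ) (by linarith) (by simp)
    rw [e3] at e2
    have e4 := (z5 t ht q (2, φ)).1
    rw [z2 t (2, φ) q]
    have e5 := ZZ_pos ht q (2, φ)
    have e6 : C4 * E2 t (min (cm q (2, φ)) (cp q (2, φ))) ≤ C4 * ZZ t q (2, φ) :=
      mul_le_mul_of_nonneg_left e4 hC4.le
    have e7 : 0 ≤ C2 * ZZ t q (2, φ) := by positivity
    rw [add_mul]
    linarith
  refine ⟨C2 + C4, by positivity, ?_⟩
  intro p q hp hq t ht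
  rcases le_or_gt t 1 with ht1 | ht1
  · exact ha p q hp hq t ht (by linarith [abs_nonneg p.1, abs_nonneg q.1])
  · have key := hC F 2 1 t (fun t p => H t p q + (C2 + C4) * -ZZ t p q) hF.pos ht1
      ?_ ?_ ?_ ?_ ?_ ?_ t ⟨ht1.le, le_rfl⟩ p hp
    · have : H t p q + (C2 + C4) * -ZZ t p q ≤ 0 := key
      linarith
    · have c1 : ContinuousOn (fun z : ℝ × X => H z.1 z.2 q) (Icc 1 t ×ˢ {p | 2 ≤ p.1}) := by
        have : ContinuousOn ((fun z : ℝ × X × X => H z.1 z.2.1 z.2.2) ∘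
            (fun z : ℝ × X => (z.1, z.2, q))) (Icc 1 t ×ˢ {p | 2 ≤ p.1}) := by
          refine hH.cont.comp (by fun_prop) ?_
          intro z hz
          have : (1 : ℝ) ≤ z.1 := hz.1.1
          refine ⟨?_, mem_univ _⟩
          show (0 : ℝ) < z.1
          linarith
        exact this
      have c2 : ContinuousOn (fun z : ℝ × X => ZZ z.1 z.2 q) (Icc 1 t ×ˢ {p | 2 ≤ p.1}) := by
        refine (z4 q).mono ?_
        intro z hz
        have : (1 : ℝ) ≤ z.1 := hz.1.1
        refine ⟨?_, mem_univ _⟩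
        show (0 : ℝ) < z.1
        linarith
      exact c1.add (continuousOn_const.mul c2.neg)
    · intro s hs p'
      have hs0 : 0 < s := by linarith [hs.1]
      have e1 := GInv.pi (hH.inv s hs0 q) p'
      have e2 := z3 s p' q
      show H s (p'.1, p'.2 + Real.pi) q + (C2 + C4) * -ZZ s (p'.1, p'.2 + Real.pi) q =
        H s p' q + (C2 + C4) * -ZZ s p' q
      rw [e2]
      have e1' : H s (p'.1, p'.2 + Real.pi) q = H s p' q := e1
      rw [e1']
    · intro ε hε
      obtain ⟨R, hR⟩ := hDec F H hF hH q t ht ε hε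
      refine ⟨R, ?_⟩
      intro s hs p' hp'
      have hs0 : 0 < s := by linarith [hs.1]
      have e1 := hR s ⟨hs0, hs.2⟩ p' (hp'.trans (le_abs_self _))
      have e2 := ZZ_pos hs0 p' q
      have e3 : 0 ≤ (C2 + C4) * ZZ s p' q := by positivity
      show H s p' q + (C2 + C4) * -ZZ s p' q ≤ ε
      linarith
    · intro p' hp'
      have e1 := ha p' q hp' hq 1 one_pos (by linarith [abs_nonneg p'.1, abs_nonneg q.1])
      show H 1 p' q + (C2 + C4) * -ZZ 1 p' q ≤ 0
      linarith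
    · intro s hs φ
      have hs0 : 0 < s := by linarith [hs.1]
      have e1 := hb q hq s hs0 φ
      show H s (2, φ) q + (C2 + C4) * -ZZ s (2, φ) q ≤ 0
      linarith
    · intro s hs p' hp' _
      have hs0 : 0 < s := by linarith [hs.1]
      have cl := hH.cl q
      have j1 : SubJet F (fun t p => H t p q) s p' :=
        hJ.cls F (fun t p => H t p q) s p' _ ((cl.c2 s hs0).contDiffAt) (cl.heat s hs0 p') le_rfl
      obtain ⟨w1, w2⟩ := z1 q p' (by linarith) s hs0
      have j2 : SupJet F (fun t p => ZZ t p q) s p' :=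
        hJ.cls' F (fun t p => ZZ t p q) s p' _ w1 w2 le_rfl
      have j3 : SubJet F (fun t p => -ZZ t p q) s p' := j2
      have j4 := hJ.smul F _ (C2 + C4) s p' (by positivity) j3
      exact hJ.add F _ _ s p' j1 j4

end Pool.Agent.H69.HK
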